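import Mathlib

set_option autoImplicit false
set_option linter.unusedSectionVars false

namespace Pool.Agent.H.MP_6da9ed_an

open Finset

section comb
variable {ι : Type} [Fintype ι] [DecidableEq ι]

/-- the largest sum of at most `k` positive parts -/
noncomputable def ph (k : ℕ) (z : ι → ℝ) : ℝ :=
  (univ.filter fun S : Finset ι => S.card ≤ k).sup' ⟨∅, by simp⟩ fun S => ∑ i ∈ S, max (z i) 0

lemma le_ph {k : ℕ} (z : ι → ℝ) {S : Finset ι} (h : S.card ≤ k) :
    ∑ i ∈ S, max (z i) 0 ≤ ph k z :=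
  le_sup' (fun S : Finset ι => ∑ i ∈ S, max (z i) 0) (by simpa using h)

lemma ex_ph (k : ℕ) (z : ι → ℝ) :
    ∃ S : Finset ι, S.card ≤ k ∧ ph k z = ∑ i ∈ S, max (z i) 0 := by
  obtain ⟨S, h1, h2⟩ := exists_mem_eq_sup'
    (s := univ.filter fun S : Finset ι => S.card ≤ k) ⟨∅, by simp⟩
    (fun S : Finset ι => ∑ i ∈ S, max (z i) 0)
  exact ⟨S, by simpa using h1, h2⟩

/-- the sum of the absolute values -/
noncomputable def l1 (z : ι → ℝ) : ℝ := ∑ i, |z i|

omit [DecidableEq ι] in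
lemma l1_nonneg (z : ι → ℝ) : 0 ≤ l1 z := sum_nonneg fun _ _ => abs_nonneg _

omit [DecidableEq ι] in
lemma l1_neg (z : ι → ℝ) : l1 (-z) = l1 z := by simp [l1]

omit [DecidableEq ι] in
lemma l1_add (z w : ι → ℝ) : l1 (z + w) ≤ l1 z + l1 w := by
  rw [l1, l1, l1, ← sum_add_distrib]
  exact sum_le_sum fun i _ => abs_add_le _ _

omit [DecidableEq ι] in
lemma l1_smul (a : ℝ) (z : ι → ℝ) : l1 (a • z) = |a| * l1 z := by
  simp [l1, abs_mul, mul_sum]

lemma ph_nonneg (k : ℕ) (z : ι → ℝ) : 0 ≤ ph k z := by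
  simpa using le_ph z (S := ∅) (k := k) (by simp)

lemma ph_le (k : ℕ) (z : ι → ℝ) : ph k z ≤ l1 z := by
  obtain ⟨S, -, h⟩ := ex_ph k z
  rw [h]
  exact (sum_le_sum fun i _ => max_le (le_abs_self _) (abs_nonneg _)).trans
    (sum_le_sum_of_subset_of_nonneg (subset_univ _) fun _ _ _ => abs_nonneg _)

lemma ph_add (k : ℕ) (z w : ι → ℝ) : ph k (z + w) ≤ ph k z + ph k w := by
  obtain ⟨S, hS, h⟩ := ex_ph k (z + w)
  rw [h]
  refine le_trans ?_ (add_le_add (le_ph z hS) (le_ph w hS))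
  rw [← sum_add_distrib]
  exact sum_le_sum fun i _ => max_le (add_le_add (le_max_left _ _) (le_max_left _ _))
    (add_nonneg (le_max_right _ _) (le_max_right _ _))

lemma ph_smul (k : ℕ) {a : ℝ} (ha : 0 ≤ a) (z : ι → ℝ) : ph k (a • z) = a * ph k z := by
  have e : ∀ S : Finset ι, ∑ i ∈ S, max ((a • z) i) 0 = a * ∑ i ∈ S, max (z i) 0 := fun S => by
    rw [mul_sum]
    exact sum_congr rfl fun i _ => by simp [mul_max_of_nonneg _ _ ha]
  apply le_antisymm
  · obtain ⟨S, hS, h⟩ := ex_ph k (a • z)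
    rw [h, e]
    exact mul_le_mul_of_nonneg_left (le_ph z hS) ha
  · obtain ⟨S, hS, h⟩ := ex_ph k z
    rw [h, ← e]
    exact le_ph _ hS

lemma ph_tri (k : ℕ) {a b c : ι → ℝ} (h : a + b + c = 0) :
    ph k (-a) + ph k (-b) + ph k (-c) ≤ ph (k * 3) a + ph (k * 3) b + ph (k * 3) c := by
  obtain ⟨A, hA, e1⟩ := ex_ph k (-a)
  obtain ⟨B, hB, e2⟩ := ex_ph k (-b)
  obtain ⟨C, hC, e3⟩ := ex_ph k (-c)
  have hS : (A ∪ B ∪ C).card ≤ k * 3 :=
    (card_union_le _ _).trans (by have := card_union_le A B; omega)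
  have m : ∀ (T : Finset ι) (z : ι → ℝ), T ⊆ A ∪ B ∪ C →
      ∑ i ∈ T, max (z i) 0 ≤ ∑ i ∈ A ∪ B ∪ C, max (z i) 0 := fun T z hT =>
    sum_le_sum_of_subset_of_nonneg hT fun _ _ _ => le_max_right _ _
  have m1 := m A (-a) (subset_union_left.trans subset_union_left)
  have m2 := m B (-b) (subset_union_right.trans subset_union_left)
  have m3 := m C (-c) subset_union_right
  have u1 := le_ph a hS
  have u2 := le_ph b hS
  have u3 := le_ph c hS
  have key : ∑ i ∈ A ∪ B ∪ C, max ((-a) i) 0 + ∑ i ∈ A ∪ B ∪ C, max ((-b) i) 0 +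
      ∑ i ∈ A ∪ B ∪ C, max ((-c) i) 0 = ∑ i ∈ A ∪ B ∪ C, max (a i) 0 +
      ∑ i ∈ A ∪ B ∪ C, max (b i) 0 + ∑ i ∈ A ∪ B ∪ C, max (c i) 0 := by
    simp only [← sum_add_distrib]
    refine sum_congr rfl fun i _ => ?_
    have := congrFun h i
    simp only [Pi.add_apply, Pi.zero_apply, Pi.neg_apply] at this ⊢
    have q : ∀ x : ℝ, max (-x) 0 = max x 0 - x := fun x => by
      rcases le_total x 0 with h | h
      · rw [max_eq_left (by linarith), max_eq_right h]; ring
      · rw [max_eq_right (by linarith), max_eq_left h]; ring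
    rw [q, q, q]; linarith
  linarith

/-- the average over the levels -/
noncomputable def F (n : ℕ) (z : ι → ℝ) : ℝ := (∑ j ∈ range (n + 1), ph (3 ^ j) z) / (n + 1)

lemma F_nonneg (n : ℕ) (z : ι → ℝ) : 0 ≤ F n z :=
  div_nonneg (sum_nonneg fun _ _ => ph_nonneg _ _) (by positivity)

lemma F_le (n : ℕ) (z : ι → ℝ) : F n z ≤ l1 z := by
  rw [F, div_le_iff₀ (by positivity)]
  refine (sum_le_sum fun j _ => ph_le _ z).trans ?_
  simp [mul_comm]

lemma F_add (n : ℕ) (z w : ι → ℝ) : F n (z + w) ≤ F n z + F n w := by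
  rw [F, F, F, ← add_div, ← sum_add_distrib]
  exact div_le_div_of_nonneg_right (sum_le_sum fun j _ => ph_add _ _ _) (by positivity)

lemma F_smul (n : ℕ) {a : ℝ} (ha : 0 ≤ a) (z : ι → ℝ) : F n (a • z) = a * F n z := by
  simp only [F, ph_smul _ ha, ← mul_sum, mul_div_assoc]

lemma le_F (n : ℕ) (z : ι → ℝ) (i : ι) : z i ≤ F n z := by
  rw [F, le_div_iff₀ (by positivity)]
  refine le_trans ?_ (sum_le_sum (f := fun _ => z i) fun j _ => ?_)
  · simp [mul_comm]
  · have := le_ph z (S := {i}) (k := 3 ^ j) (by simpa using Nat.one_le_pow _ _ (by norm_num))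
    rw [sum_singleton] at this
    exact (le_max_left _ _).trans this

lemma F_tri (n : ℕ) {a b c : ι → ℝ} (h : a + b + c = 0) :
    F n (-a) + F n (-b) + F n (-c) ≤ F n a + F n b + F n c + (l1 a + l1 b + l1 c) / (n + 1) := by
  have s : ∀ z : ι → ℝ, ∑ j ∈ range (n + 1), ph (3 ^ j * 3) z ≤
      ∑ j ∈ range (n + 1), ph (3 ^ j) z + l1 z := fun z => by
    have e1 := sum_range_succ' (fun j => ph (3 ^ j) z) (n + 1)
    have e2 := sum_range_succ (fun j => ph (3 ^ j) z) (n + 1)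
    simp only [pow_succ] at e1 e2
    have := ph_nonneg (3 ^ 0) z
    have := ph_le (3 ^ n * 3) z
    linarith
  have t := sum_le_sum (s := range (n + 1)) fun j _ => ph_tri (3 ^ j) h
  simp only [sum_add_distrib] at t
  simp only [F, ← add_div]
  refine div_le_div_of_nonneg_right ?_ (by positivity)
  linarith [s a, s b, s c]

/-- the odd, almost additive functional -/
noncomputable def Q (n : ℕ) (z : ι → ℝ) : ℝ := F n z - F n (-z)

lemma Q_neg (n : ℕ) (z : ι → ℝ) : Q n (-z) = -Q n z := by simp [Q]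

lemma Q_smul (n : ℕ) (a : ℝ) (z : ι → ℝ) : Q n (a • z) = a * Q n z := by
  have p : ∀ a : ℝ, 0 ≤ a → Q n (a • z) = a * Q n z := fun a ha => by
    rw [Q, Q, ← smul_neg, F_smul n ha, F_smul n ha, mul_sub]
  rcases le_total 0 a with h | h
  · exact p a h
  · have := p (-a) (by linarith)
    rw [neg_smul, Q_neg] at this
    linarith

lemma Q_add (n : ℕ) (z w : ι → ℝ) :
    |Q n (z + w) - Q n z - Q n w| ≤ 2 * (l1 z + l1 w) / (n + 1) := by
  have h1 := F_tri n (a := z + w) (b := -z) (c := -w) (by abel)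
  have h2 := F_tri n (a := -(z + w)) (b := z) (c := w) (by abel)
  simp only [neg_neg, l1_neg] at h1 h2
  have h3 : (l1 (z + w) + l1 z + l1 w) / (n + 1 : ℝ) ≤ 2 * (l1 z + l1 w) / (n + 1) :=
    div_le_div_of_nonneg_right (by linarith [l1_add z w]) (by positivity)
  rw [abs_le, Q, Q, Q]
  constructor <;> linarith

lemma F_single (n : ℕ) (i : ι) : F n (Pi.single i (1 : ℝ)) = 1 ∧ F n (-Pi.single i (1 : ℝ)) = 0 := by
  constructor
  · apply le_antisymm
    · refine (F_le _ _).trans ?_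
      simp [l1, Pi.single_apply, apply_ite]
    · simpa using le_F n (Pi.single i (1 : ℝ)) i
  · refine le_antisymm ?_ (F_nonneg _ _)
    refine div_nonpos_of_nonpos_of_nonneg (sum_nonpos fun j _ => ?_) (by positivity)
    obtain ⟨S, -, h⟩ := ex_ph (3 ^ j) (-Pi.single i (1 : ℝ))
    rw [h]
    refine sum_nonpos fun k _ => max_le ?_ le_rfl
    simp only [Pi.neg_apply, Pi.single_apply]
    split_ifs <;> simp

lemma F_negc (n : ℕ) {c : ℝ} (hc : 0 ≤ c) : F n (-fun _ : ι => c) = 0 := by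
  refine le_antisymm ?_ (F_nonneg _ _)
  refine div_nonpos_of_nonpos_of_nonneg (sum_nonpos fun j _ => ?_) (by positivity)
  obtain ⟨S, -, h⟩ := ex_ph (3 ^ j) (-fun _ : ι => c)
  rw [h]
  exact sum_nonpos fun k _ => max_le (by simpa using hc) le_rfl

/-- a linear functional below `F` that touches it at a constant vector -/
lemma F_const (n : ℕ) {c : ℝ} (hc : 0 ≤ c) : ∃ α : (ι → ℝ) →ₗ[ℝ] ℝ, (∀ z, α z ≤ F n z) ∧
    α (fun _ => c) = F n (fun _ : ι => c) ∧ F n (fun _ : ι => c) ≤ c * 3 ^ (n + 1) / 2 := by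
  choose S hS e using fun j => ex_ph (3 ^ j) (fun _ : ι => c)
  refine ⟨(1 / (n + 1 : ℝ)) • ∑ j ∈ range (n + 1), ∑ i ∈ S j, LinearMap.proj i, fun z => ?_, ?_, ?_⟩
  · simp only [LinearMap.smul_apply, LinearMap.sum_apply, LinearMap.proj_apply, smul_eq_mul, F]
    rw [one_div_mul_eq_div]
    refine div_le_div_of_nonneg_right (sum_le_sum fun j _ => ?_) (by positivity)
    exact (sum_le_sum fun i _ => le_max_left _ _).trans (le_ph z (hS j))
  · simp only [LinearMap.smul_apply, LinearMap.sum_apply, LinearMap.proj_apply, smul_eq_mul, F, e,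
      max_eq_left hc]
    rw [one_div_mul_eq_div]
  · have g : ∀ m : ℕ, ∑ j ∈ range m, (3 : ℝ) ^ j ≤ 3 ^ m / 2 := fun m => by
      induction m with
      | zero => simp
      | succ m ih => rw [sum_range_succ, pow_succ]; linarith
    have h1 : ∑ j ∈ range (n + 1), ph (3 ^ j) (fun _ : ι => c) ≤ c * 3 ^ (n + 1) / 2 := by
      calc _ ≤ ∑ j ∈ range (n + 1), c * 3 ^ j := sum_le_sum fun j _ => by
              rw [e, max_eq_left hc, sum_const, nsmul_eq_mul, mul_comm]
              exact mul_le_mul_of_nonneg_left (by exact_mod_cast hS j) hc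
        _ ≤ _ := by
              rw [← mul_sum, mul_div_assoc]
              exact mul_le_mul_of_nonneg_left (g _) hc
    refine le_trans (div_le_self (sum_nonneg fun _ _ => ph_nonneg _ _) ?_) h1
    have : (0 : ℝ) ≤ n := n.cast_nonneg
    linarith

end comb

end Pool.Agent.H.MP_6da9ed_an
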