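import Pool.Agent.H.MP_6da9ed_an.A

set_option autoImplicit false

namespace Pool.Agent.H.MP_6da9ed_an

open Finset

/-- the index set -/
abbrev Ix (n : ℕ) : Type := Fin (3 ^ (n + 1))

/-- the finite dimensional pieces -/
def Y (n : ℕ) : Type := ℂ × (Ix n → ℝ)

noncomputable instance (n : ℕ) : AddCommGroup (Y n) :=
  inferInstanceAs (AddCommGroup (ℂ × (Ix n → ℝ)))
noncomputable instance (n : ℕ) : Module ℝ (Y n) := inferInstanceAs (Module ℝ (ℂ × (Ix n → ℝ)))
instance (n : ℕ) : Module.Finite ℝ (Y n) := inferInstanceAs (Module.Finite ℝ (ℂ × (Ix n → ℝ)))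

variable {n : ℕ}

/-- first component -/
def Y.h (x : Y n) : ℂ := Prod.fst x
/-- second component -/
def Y.z (x : Y n) : Ix n → ℝ := Prod.snd x
/-- constructor -/
def mk (h : ℂ) (z : Ix n → ℝ) : Y n := (h, z)

lemma mk_h (h : ℂ) (z : Ix n → ℝ) : (mk h z).h = h := rfl
lemma mk_z (h : ℂ) (z : Ix n → ℝ) : (mk h z).z = z := rfl
lemma add_h (x y : Y n) : (x + y).h = x.h + y.h := rfl
lemma add_z (x y : Y n) : (x + y).z = x.z + y.z := rfl
lemma smul_h (a : ℝ) (x : Y n) : (a • x).h = a * x.h := rfl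
lemma smul_z (a : ℝ) (x : Y n) : (a • x).z = a • x.z := rfl
lemma Y.ext {x y : Y n} (h1 : x.h = y.h) (h2 : x.z = y.z) : x = y := Prod.ext h1 h2

/-- the nonlinear projection -/
noncomputable def P (x : Y n) : ℂ := x.h - Q n x.z

noncomputable instance : Norm (Y n) := ⟨fun x => ‖P x‖ + l1 x.z + F n x.z + F n (-x.z)⟩

lemma norm_def (x : Y n) : ‖x‖ = ‖P x‖ + l1 x.z + F n x.z + F n (-x.z) := rfl

/-- real inner product of complex numbers -/
def dot (w p : ℂ) : ℝ := w.re * p.re + w.im * p.im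

lemma dot_le {w : ℂ} (hw : ‖w‖ ≤ 1) (p : ℂ) : dot w p ≤ ‖p‖ := by
  have h : dot w p = ((starRingEnd ℂ) w * p).re := by simp [dot]
  rw [h]
  refine (Complex.re_le_norm _).trans ?_
  rw [norm_mul, Complex.norm_conj]
  exact mul_le_of_le_one_left (norm_nonneg _) hw

lemma ex_dot (p : ℂ) : ∃ w : ℂ, ‖w‖ ≤ 1 ∧ dot w p = ‖p‖ := by
  rcases eq_or_ne p 0 with rfl | h
  · exact ⟨0, by simp, by simp [dot]⟩
  have h0 : 0 < ‖p‖ := norm_pos_iff.2 h
  refine ⟨p / (‖p‖ : ℝ), by simp [h0.ne'], ?_⟩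
  simp only [dot, Complex.div_ofReal_re, Complex.div_ofReal_im]
  have := Complex.sq_norm p
  rw [Complex.normSq_apply] at this
  field_simp
  linarith

/-- the sublinear functionals whose supremum is the norm -/
noncomputable def G (w : ℂ) (x : Y n) : ℝ :=
  dot w x.h + l1 x.z + (1 - w.re) * F n x.z + (1 + w.re) * F n (-x.z)

lemma G_eq (w : ℂ) (x : Y n) : G w x = dot w (P x) + l1 x.z + F n x.z + F n (-x.z) := by
  simp only [G, dot, P, Q, Complex.sub_re, Complex.sub_im, Complex.ofReal_re, Complex.ofReal_im]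
  ring

lemma G_le {w : ℂ} (hw : ‖w‖ ≤ 1) (x : Y n) : G w x ≤ ‖x‖ := by
  rw [G_eq, norm_def]; linarith [dot_le hw (P x)]

lemma re_bd {w : ℂ} (hw : ‖w‖ ≤ 1) : 0 ≤ 1 - w.re ∧ 0 ≤ 1 + w.re := by
  have := abs_le.1 ((Complex.abs_re_le_norm w).trans hw)
  constructor <;> linarith [this.1, this.2]

lemma P_smul (a : ℝ) (x : Y n) : P (a • x) = a * P x := by
  simp only [P, smul_h, smul_z, Q_smul]; push_cast; ring

lemma l1_le (x : Y n) : l1 x.z ≤ ‖x‖ := by
  rw [norm_def]; linarith [norm_nonneg (P x), F_nonneg n x.z, F_nonneg n (-x.z)]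

lemma P_le (x : Y n) : ‖P x‖ ≤ ‖x‖ := by
  rw [norm_def]; linarith [l1_nonneg x.z, F_nonneg n x.z, F_nonneg n (-x.z)]

lemma h_le (x : Y n) : ‖x.h‖ ≤ ‖x‖ := by
  have e : x.h = P x + Q n x.z := by simp [P]
  have := norm_add_le (P x) (Q n x.z : ℂ)
  rw [← e, Complex.norm_real, Real.norm_eq_abs] at this
  have q : |Q n x.z| ≤ F n x.z + F n (-x.z) := by
    rw [abs_le, Q]; constructor <;> linarith [F_nonneg n x.z, F_nonneg n (-x.z)]
  rw [norm_def]; linarith [l1_nonneg x.z]

lemma norm_le (x : Y n) : ‖x‖ ≤ ‖x.h‖ + 5 * l1 x.z := by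
  have := norm_sub_le x.h (Q n x.z : ℂ)
  rw [Complex.norm_real, Real.norm_eq_abs] at this
  have q : |Q n x.z| ≤ F n x.z + F n (-x.z) := by
    rw [abs_le, Q]; constructor <;> linarith [F_nonneg n x.z, F_nonneg n (-x.z)]
  have h1 := F_le n x.z
  have h2 := F_le n (-x.z)
  rw [l1_neg] at h2
  rw [norm_def, P]; linarith

lemma core : NormedSpace.Core ℝ (Y n) where
  norm_nonneg x := (norm_nonneg _).trans (P_le x)
  norm_smul a x := by
    have e : F n (a • x.z) + F n (-(a • x.z)) = |a| * (F n x.z + F n (-x.z)) := by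
      rcases le_total 0 a with h | h
      · rw [← smul_neg, F_smul n h, F_smul n h, abs_of_nonneg h, mul_add]
      · have e1 : a • x.z = (-a) • (-x.z) := by simp
        rw [← neg_smul, F_smul n (neg_nonneg.2 h), e1, F_smul n (neg_nonneg.2 h),
          abs_of_nonpos h]
        ring
    rw [norm_def, norm_def, P_smul, smul_z, l1_smul, norm_mul, Complex.norm_real, Real.norm_eq_abs]
    linarith
  norm_triangle x y := by
    obtain ⟨w, hw, e⟩ := ex_dot (P (x + y))
    have h1 := G_le hw x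
    have h2 := G_le hw y
    have h3 : ‖x + y‖ = G w (x + y) := by rw [G_eq, e, norm_def]
    obtain ⟨p, q⟩ := re_bd hw
    have a1 := mul_le_mul_of_nonneg_left (F_add n x.z y.z) p
    have a2 := mul_le_mul_of_nonneg_left (F_add n (-x.z) (-y.z)) q
    have a3 := l1_add x.z y.z
    rw [h3]
    simp only [G, add_h, add_z, dot, Complex.add_re, Complex.add_im, neg_add] at h1 h2 ⊢
    linarith
  norm_eq_zero_iff x := by
    constructor
    · intro h
      have h1 := h_le x
      have h2 := l1_le x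
      rw [h] at h1 h2
      refine Y.ext (norm_le_zero_iff.1 h1) (funext fun i => ?_)
      exact abs_nonpos_iff.1 ((single_le_sum (f := fun i => |x.z i|) (fun _ _ => abs_nonneg _)
        (mem_univ i)).trans h2)
    · rintro rfl
      have h := norm_le (0 : Y n)
      have e : ‖(0 : Y n).h‖ + 5 * l1 (0 : Y n).z = 0 := by
        change ‖(0 : ℂ)‖ + 5 * l1 (0 : Ix n → ℝ) = 0
        simp [l1]
      exact le_antisymm (h.trans e.le) ((norm_nonneg _).trans (P_le _))

noncomputable instance : NormedAddCommGroup (Y n) := NormedAddCommGroup.ofCore core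
noncomputable instance : NormedSpace ℝ (Y n) := ⟨fun a x => (core.norm_smul a x).le⟩
instance : CompleteSpace (Y n) := FiniteDimensional.complete ℝ _

lemma norm_mk0 (h : ℂ) : ‖mk (n := n) h 0‖ = ‖h‖ := by
  have : F n (0 : Ix n → ℝ) = 0 := le_antisymm ((F_le _ _).trans (by simp [l1])) (F_nonneg _ _)
  simp [norm_def, P, mk_h, mk_z, Q, l1, this]

/-- linear functionals -/
noncomputable def gl (w : ℂ) (α : (Ix n → ℝ) →ₗ[ℝ] ℝ) : Y n →ₗ[ℝ] ℝ where
  toFun x := dot w x.h + α x.z
  map_add' x y := by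
    simp only [add_h, add_z, dot, Complex.add_re, Complex.add_im, map_add]; ring
  map_smul' a x := by
    simp only [smul_h, smul_z, dot, Complex.re_ofReal_mul, Complex.im_ofReal_mul, map_smul,
      smul_eq_mul, RingHom.id_apply]; ring

lemma gl_apply (w : ℂ) (α : (Ix n → ℝ) →ₗ[ℝ] ℝ) (x : Y n) : gl w α x = dot w x.h + α x.z := rfl

/-- the functional with coefficients `s` -/
noncomputable def sg (s : Ix n → ℝ) : (Ix n → ℝ) →ₗ[ℝ] ℝ := ∑ i, s i • LinearMap.proj i

lemma sg_apply (s z : Ix n → ℝ) : sg s z = ∑ i, s i * z i := by simp [sg]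

lemma sg_le {s : Ix n → ℝ} (hs : ∀ i, |s i| ≤ 1) (z : Ix n → ℝ) : sg s z ≤ l1 z := by
  rw [sg_apply]
  refine sum_le_sum fun i _ => (le_abs_self _).trans ?_
  rw [abs_mul]
  exact mul_le_of_le_one_left (abs_nonneg _) (hs i)

lemma gl_le {w : ℂ} (hw : ‖w‖ ≤ 1) {s : Ix n → ℝ} (hs : ∀ i, |s i| ≤ 1)
    {α : (Ix n → ℝ) →ₗ[ℝ] ℝ} (hα : ∀ z, α z ≤ F n z) (x : Y n) :
    gl w (sg s + (1 - w.re) • α) x ≤ ‖x‖ := by
  refine le_trans ?_ (G_le hw x)
  obtain ⟨p, q⟩ := re_bd hw
  have a1 := mul_le_mul_of_nonneg_left (hα x.z) p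
  have a2 := mul_nonneg q (F_nonneg n (-x.z))
  have a3 := sg_le hs x.z
  simp only [gl_apply, G, LinearMap.add_apply, LinearMap.smul_apply, smul_eq_mul]
  linarith

lemma sgn_mul (x : ℝ) : (SignType.sign x : ℝ) * x = |x| := sign_mul_self x

lemma sgn_le (x : ℝ) : |(SignType.sign x : ℝ)| ≤ 1 := by
  rcases lt_trichotomy x 0 with h | h | h <;> simp [h]

/-- the numerical radius controls the norm, uniformly in `n` -/
lemma key (S : Y n →ₗ[ℝ] Y n) {v : ℝ}
    (hv : ∀ (x : Y n) (g : Y n →ₗ[ℝ] ℝ), (∀ y, g y ≤ ‖y‖) → g x = ‖x‖ → |g (S x)| ≤ v * ‖x‖)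
    (x : Y n) : ‖S x‖ ≤ 500 * v * ‖x‖ := by
  have z0 : ∀ z : Ix n → ℝ, (0 : (Ix n → ℝ) →ₗ[ℝ] ℝ) z ≤ F n z := fun z => F_nonneg n z
  -- the points of the plane
  have p2 : ∀ η : ℂ, ‖η‖ = 1 → |dot η (S (mk η 0)).h| ≤ v ∧ l1 (S (mk η 0)).z ≤ 2 * v := by
    intro η hη
    have t : ∀ s : Ix n → ℝ, (∀ i, |s i| ≤ 1) →
        |dot η (S (mk η 0)).h + sg s (S (mk η 0)).z| ≤ v := fun s hs => by
      have := hv (mk η 0) _ (gl_le hη.le hs z0) (by
        have := Complex.sq_norm η
        rw [Complex.normSq_apply, hη] at this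
        simp [gl_apply, mk_h, mk_z, norm_mk0, hη, dot]
        linarith)
      simpa [gl_apply, norm_mk0, hη] using this
    have t0 := t 0 (by simp)
    have t1 := t (fun i => SignType.sign ((S (mk η 0)).z i)) fun i => sgn_le _
    simp only [sg_apply, Pi.zero_apply, zero_mul, sum_const_zero, add_zero, sgn_mul] at t0 t1
    refine ⟨t0, ?_⟩
    have := abs_le.1 t0
    have := abs_le.1 t1
    rw [l1]; linarith
  have v0 : 0 ≤ v := (abs_nonneg _).trans (p2 1 norm_one).1
  -- the vertices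
  have p1 : ∀ i : Ix n, ‖S (mk 1 (Pi.single i 1))‖ ≤ 30 * v := by
    intro i
    have nx : ‖mk (n := n) 1 (Pi.single i 1)‖ = 2 := by
      simp [norm_def, P, mk_h, mk_z, Q, (F_single n i).1, (F_single n i).2, l1, Pi.single_apply,
        apply_ite]
      norm_num
    set y := S (mk 1 (Pi.single i 1))
    have t : ∀ w : ℂ, ‖w‖ ≤ 1 → ∀ s : Ix n → ℝ, (∀ i, |s i| ≤ 1) → s i = 1 →
        |dot w y.h + (sg s y.z + (1 - w.re) * y.z i)| ≤ v * 2 := fun w hw s hs hi => by
      have := hv (mk 1 (Pi.single i 1)) _ (gl_le hw hs (α := LinearMap.proj i)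
        fun z => le_F n z i) (by
          simp [gl_apply, mk_h, mk_z, nx, dot, sg_apply, Pi.single_apply, hi]
          ring)
      simpa [gl_apply, nx] using this
    have s0 : ∀ k, |(Pi.single i 1 : Ix n → ℝ) k| ≤ 1 := fun k => by
      rw [Pi.single_apply]; split_ifs <;> simp
    have e0 : sg (Pi.single i 1) y.z = y.z i := by simp [sg_apply, Pi.single_apply]
    have t0 := abs_le.1 (t 0 (by simp) _ s0 (by simp))
    have t1 := abs_le.1 (t 0 (by simp) (Function.update (fun k => SignType.sign (y.z k)) i 1)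
      (fun k => by
        rw [Function.update_apply]; split_ifs
        · simp
        · exact sgn_le _) (by simp))
    obtain ⟨w, hw, ew⟩ := ex_dot y.h
    have t2 := abs_le.1 (t w hw _ s0 (by simp))
    have e1 : sg (Function.update (fun k => (SignType.sign (y.z k) : ℝ)) i 1) y.z =
        l1 y.z - |y.z i| + y.z i := by
      rw [sg_apply, l1, ← add_sum_erase _ _ (mem_univ i), ← add_sum_erase _ _ (mem_univ i),
        Function.update_self, sum_congr rfl (g := fun k => |y.z k|) fun k hk => by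
          rw [Function.update_of_ne (ne_of_mem_erase hk), sgn_mul]]
      ring
    simp only [e0, e1, dot, Complex.zero_re, Complex.zero_im, zero_mul, add_zero, zero_add,
      sub_zero, one_mul] at t0 t1 t2
    have hz : |y.z i| ≤ v := abs_le.2 ⟨by linarith [t0.1], by linarith [t0.2]⟩
    obtain ⟨p, q⟩ := re_bd hw
    have : -((1 - w.re) * y.z i) ≤ 2 * v := by
      have := abs_le.1 hz
      nlinarith
    have := norm_le y
    have := abs_le.1 hz
    rw [dot] at ew
    linarith [t1.2, t2.2]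
  obtain ⟨a1, a2⟩ := p2 1 norm_one
  obtain ⟨b1, b2⟩ := p2 Complex.I Complex.norm_I
  set A := S (mk 1 0) with hA
  set B := S (mk Complex.I 0) with hB
  have dec : ∀ h : ℂ, S (mk h 0) = h.re • A + h.im • B := fun h => by
    rw [hA, hB, ← map_smul, ← map_smul, ← map_add]
    congr 1
    refine Y.ext ?_ ?_
    · simp [add_h, smul_h, mk_h]
    · simp [add_z, smul_z, mk_z]
  have c1 := (p2 ⟨3 / 5, 4 / 5⟩ (by
    rw [Complex.norm_eq_sqrt_sq_add_sq]; norm_num)).1
  rw [dec] at c1
  simp only [dot, add_h, smul_h, Complex.add_re, Complex.add_im, Complex.re_ofReal_mul,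
    Complex.im_ofReal_mul, Complex.one_re, Complex.one_im, Complex.I_re, Complex.I_im, one_mul,
    zero_mul, add_zero, zero_add] at a1 b1 c1
  -- decomposition of a general vector
  have dec2 : ∀ x : Y n, S x = ∑ i, x.z i • S (mk 1 (Pi.single i 1)) +
      S (mk (x.h - (∑ i, x.z i : ℝ)) 0) := fun x => by
    simp only [← map_smul, ← map_sum, ← map_add]
    congr 1
    let φ : Y n →ₗ[ℝ] ℂ := LinearMap.fst ℝ ℂ (Ix n → ℝ)
    let ψ : Y n →ₗ[ℝ] (Ix n → ℝ) := LinearMap.snd ℝ ℂ (Ix n → ℝ)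
    have e1 : ∀ y, φ y = y.h := fun _ => rfl
    have e2 : ∀ y, ψ y = y.z := fun _ => rfl
    refine Y.ext ?_ ?_
    · rw [← e1 (_ + _), map_add, map_sum]
      simp [e1, mk_h, smul_h]
    · rw [← e2 (_ + _), map_add, map_sum]
      simp only [e2, mk_z, smul_z, add_zero]
      funext k
      simp [Pi.single_apply]
  have sb : ∀ z : Ix n → ℝ, ‖∑ i, z i • S (mk 1 (Pi.single i 1))‖ ≤ l1 z * (30 * v) := fun z => by
    refine (norm_sum_le _ _).trans ?_
    rw [l1, sum_mul]
    refine sum_le_sum fun i _ => ?_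
    rw [norm_smul, Real.norm_eq_abs]
    exact mul_le_mul_of_nonneg_left (p1 i) (abs_nonneg _)
  -- the special point
  have th : |A.h.im| ≤ 104 * v := by
    set c : ℝ := 1 / 3 ^ (n + 1) with hc
    have c0 : 0 ≤ c := by positivity
    obtain ⟨α, h1, h2, h3⟩ := F_const (ι := Ix n) n c0
    have h4 := F_negc (ι := Ix n) n c0
    set q := F n (fun _ : Ix n => c)
    have q0 : 0 ≤ q := F_nonneg _ _
    have q1 : q ≤ 1 / 2 := by
      refine h3.trans (le_of_eq ?_)
      rw [hc]; field_simp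
    have sc : ∑ _i : Ix n, c = 1 := by simp [hc]
    have lc : l1 (fun _ : Ix n => c) = 1 := by simp only [l1, abs_of_nonneg c0, sc]
    have nx : ‖mk (n := n) (q + Complex.I) (fun _ => c)‖ = 2 + q := by
      rw [norm_def, P, mk_h, mk_z, Q, h4, lc, sub_zero, add_sub_cancel_left, Complex.norm_I]
      ring
    have gle := gl_le (n := n) (w := Complex.I) Complex.norm_I.le (s := fun _ => 1) (by simp) h1
    set g := gl Complex.I (sg (n := n) (fun _ => 1) + (1 - Complex.I.re) • α) with hg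
    have ga : ∀ y, |g y| ≤ ‖y‖ := fun y => abs_le.2 ⟨by
      have := gle (-y)
      rw [map_neg, norm_neg] at this
      linarith, gle y⟩
    have gb : ∀ y : Y n, |g y - y.h.im| ≤ 5 * l1 y.z := fun y => by
      have e : g y - y.h.im = g (mk 0 y.z) := by simp [hg, gl_apply, dot, mk_h, mk_z]
      have := norm_le (mk (n := n) 0 y.z)
      rw [mk_h, mk_z, norm_zero, zero_add] at this
      rw [e]; exact (ga _).trans this
    have t := hv (mk (q + Complex.I) (fun _ => c)) g gle (by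
      rw [nx]
      simp only [hg, gl_apply, mk_h, mk_z, dot, LinearMap.add_apply, LinearMap.smul_apply, h2,
        sg_apply, one_mul, sc]
      simp
      ring)
    rw [nx, dec2, mk_h, mk_z, sc, dec, map_add, map_add, map_smul, map_smul] at t
    have u := (ga _).trans (sb fun _ => c)
    rw [lc] at u
    simp only [Complex.sub_re, Complex.add_re, Complex.ofReal_re, Complex.I_re, Complex.sub_im,
      Complex.add_im, Complex.ofReal_im, Complex.I_im, smul_eq_mul] at t
    have g1 := abs_le.1 (gb A)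
    have g2 := abs_le.1 (gb B)
    have t' := abs_le.1 t
    have u' := abs_le.1 u
    have b' := abs_le.1 b1
    have w : |(1 - q) * g A| ≤ 47 * v := by
      rw [abs_le]; constructor <;> nlinarith
    rw [abs_mul, abs_of_nonneg (by linarith : 0 ≤ 1 - q)] at w
    have w2 : |g A| ≤ 94 * v := by nlinarith [abs_nonneg (g A)]
    have := abs_le.1 w2
    rw [abs_le]; constructor <;> linarith
  have nA : ‖A‖ ≤ 115 * v := by
    have := Complex.norm_le_abs_re_add_abs_im A.h
    linarith [norm_le A]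
  have nB : ‖B‖ ≤ 120 * v := by
    have := Complex.norm_le_abs_re_add_abs_im B.h
    have h : |B.h.re| ≤ 109 * v := by
      have := abs_le.1 a1
      have := abs_le.1 b1
      have := abs_le.1 c1
      have := abs_le.1 th
      rw [abs_le]; constructor <;> linarith
    linarith [norm_le B]
  rw [dec2, dec]
  refine (norm_add_le _ _).trans ((add_le_add (sb _) (norm_add_le _ _)).trans ?_)
  have hx := l1_le x
  have hs : ‖x.h - (∑ i, x.z i : ℝ)‖ ≤ 2 * ‖x‖ := by
    refine (norm_sub_le _ _).trans ?_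
    rw [Complex.norm_real, Real.norm_eq_abs]
    have : |∑ i, x.z i| ≤ l1 x.z := abs_sum_le_sum_abs _ _
    linarith [h_le x]
  rw [norm_smul, norm_smul, Real.norm_eq_abs, Real.norm_eq_abs]
  have r1 := mul_le_mul ((Complex.abs_re_le_norm _).trans hs) nA (norm_nonneg _) (by positivity)
  have r2 := mul_le_mul ((Complex.abs_im_le_norm _).trans hs) nB (norm_nonneg _) (by positivity)
  have r3 := mul_le_mul_of_nonneg_right hx (by positivity : 0 ≤ 30 * v)
  nlinarith

end Pool.Agent.H.MP_6da9ed_an
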