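import Pool.Agent.H.MP_6da9ed_an.B

set_option autoImplicit false

namespace Pool.Agent.H.MP_6da9ed_an

open Filter Topology
open scoped ENNReal

/-- the space -/
abbrev X : Type := lp Y ∞

lemma ap (x : X) (n : ℕ) : ‖x n‖ ≤ ‖x‖ := lp.norm_apply_le_norm ENNReal.top_ne_zero x n

lemma lower (T : X →L[ℝ] X) {v : ℝ}
    (hv : ∀ (x : X) (f : X →L[ℝ] ℝ), ‖x‖ = 1 → ‖f‖ = 1 → f x = 1 → |f (T x)| ≤ v) :
    ‖T‖ ≤ 1500 * v := by
  -- one component
  have main : ∀ (n : ℕ) (r : X), r n = 0 → ‖r‖ ≤ 1 → ∀ u : Y n, ‖u‖ = 1 →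
      ‖T (lp.single ∞ n u + r) n‖ ≤ 500 * v := by
    intro n r hr hr1 u hu
    obtain ⟨ψ, hψ, e⟩ := exists_dual_vector ℝ u (by rw [hu]; exact one_ne_zero)
    rw [hu] at e
    let Φ : Y n →ₗ[ℝ] X := lp.lsingle ∞ n + (ψ : Y n →ₗ[ℝ] ℝ).smulRight r
    have Φa : ∀ w, Φ w = lp.single ∞ n w + ψ w • r := fun _ => rfl
    have Φn : ∀ w, Φ w n = w := fun w => by
      rw [Φa, lp.coeFn_add, Pi.add_apply, lp.single_apply_self, lp.coeFn_smul, Pi.smul_apply, hr,
        smul_zero, add_zero]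
    have Φm : ∀ w, ‖Φ w‖ = ‖w‖ := fun w => by
      refine le_antisymm (lp.norm_le_of_forall_le (norm_nonneg _) fun j => ?_) ?_
      · rcases eq_or_ne j n with rfl | h
        · rw [Φn]
        · rw [Φa, lp.coeFn_add, Pi.add_apply, lp.single_apply_ne _ _ _ h, zero_add, lp.coeFn_smul,
            Pi.smul_apply, norm_smul]
          have := ψ.le_opNorm w
          rw [hψ, one_mul] at this
          exact (mul_le_of_le_one_right (norm_nonneg _) ((ap r j).trans hr1)).trans this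
      · simpa [Φn] using ap (Φ w) n
    let S : Y n →ₗ[ℝ] Y n := (lp.evalₗ Y ∞ n).comp ((T : X →ₗ[ℝ] X).comp Φ)
    have := key S (v := v) (fun x g hg hx => by
      rcases eq_or_ne x 0 with rfl | h
      · simp
      have x0 : 0 < ‖x‖ := norm_pos_iff.2 h
      have ga : ∀ y, |g y| ≤ ‖y‖ := fun y => abs_le.2 ⟨by
        have := hg (-y)
        rw [map_neg, norm_neg] at this
        linarith, hg y⟩
      let f : X →L[ℝ] ℝ := (g.comp (lp.evalₗ Y ∞ n)).mkContinuous 1 fun y => by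
        rw [one_mul]; exact (ga _).trans (ap y n)
      have fa : ∀ y : X, f y = g (y n) := fun _ => rfl
      have n1 : ‖Φ (‖x‖⁻¹ • x)‖ = 1 := by rw [Φm, norm_smul]; simp [x0.ne']
      have f1 : f (Φ (‖x‖⁻¹ • x)) = 1 := by
        rw [fa, Φn, map_smul, hx, smul_eq_mul, inv_mul_cancel₀ x0.ne']
      have := hv _ f n1 (le_antisymm (LinearMap.mkContinuous_norm_le _ zero_le_one _) (by
        have := f.le_opNorm (Φ (‖x‖⁻¹ • x))
        rwa [f1, n1, norm_one, mul_one] at this)) f1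
      rw [map_smul, map_smul, map_smul, smul_eq_mul, abs_mul, abs_inv, abs_norm,
        inv_mul_le_iff₀ x0, mul_comm] at this
      exact this) u
    rw [hu, mul_one] at this
    have e2 : S u = T (lp.single ∞ n u + r) n := by
      change T (Φ u) n = _
      rw [Φa, e]; simp
    rwa [e2] at this
  have u1 : ∀ n, ‖mk (n := n) 1 0‖ = 1 := fun n => by rw [norm_mk0, norm_one]
  have v0 : 0 ≤ 500 * v := (norm_nonneg _).trans (main 0 0 rfl (by simp) _ (u1 0))
  refine T.opNorm_le_of_unit_norm (by linarith) fun x hx => ?_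
  refine lp.norm_le_of_forall_le (by linarith) fun n => ?_
  have h0 : ∀ w : Y n, ‖w‖ ≤ 1 → ‖T (lp.single ∞ n w) n‖ ≤ 500 * v := fun w hw => by
    rcases eq_or_ne w 0 with rfl | h
    · simpa using v0
    have w0 : 0 < ‖w‖ := norm_pos_iff.2 h
    have := main n 0 rfl (by simp) (‖w‖⁻¹ • w) (by rw [norm_smul]; simp [w0.ne'])
    rw [add_zero, lp.single_smul, map_smul, lp.coeFn_smul, Pi.smul_apply, norm_smul, norm_inv,
      norm_norm, inv_mul_le_iff₀ w0] at this
    nlinarith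
  set r : X := x - lp.single ∞ n (x n) with hr
  have r0 : r n = 0 := by rw [hr, lp.coeFn_sub, Pi.sub_apply, lp.single_apply_self, sub_self]
  have r1 : ‖r‖ ≤ 1 := lp.norm_le_of_forall_le zero_le_one fun j => by
    rcases eq_or_ne j n with rfl | h
    · rw [r0]; simp
    · rw [hr, lp.coeFn_sub, Pi.sub_apply, lp.single_apply_ne _ _ _ h, sub_zero, ← hx]
      exact ap x j
  have e : x = lp.single ∞ n (x n) + (lp.single ∞ n (mk 1 0) + r) - lp.single ∞ n (mk 1 0) := by
    rw [hr]; abel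
  have a1 := h0 (x n) (hx ▸ ap x n)
  have a2 := main n r r0 r1 _ (u1 n)
  have a3 := h0 _ (u1 n).le
  rw [e, map_sub, map_add, lp.coeFn_sub, lp.coeFn_add, Pi.sub_apply, Pi.add_apply]
  refine (norm_sub_le _ _).trans ((add_le_add_left (norm_add_le _ _) _).trans ?_)
  linarith

/-- the nonlinear rotations -/
noncomputable def R (k : ℕ) (x : X) : X := lp.single ∞ k (mk (Complex.I * P (x k)) 0)

lemma R_norm (k : ℕ) (x : X) : ‖R k x‖ = ‖P (x k)‖ := by
  rw [R, lp.norm_single (by simp), norm_mk0, norm_mul, Complex.norm_I, one_mul]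

lemma R_le (k : ℕ) (x : X) : ‖R k x‖ ≤ ‖x‖ := by
  rw [R_norm]; exact (P_le _).trans (ap x k)

lemma R_smul (k : ℕ) (a : ℝ) (x : X) : R k (a • x) = a • R k x := by
  rw [R, R, ← lp.single_smul, lp.coeFn_smul, Pi.smul_apply, P_smul]
  congr 1
  refine Y.ext ?_ ?_
  · simp only [smul_h, mk_h]; ring
  · simp [smul_z, mk_z]

lemma R_add (k : ℕ) (x y : X) :
    ‖R k (x + y) - (R k x + R k y)‖ ≤ 2 * (‖x‖ + ‖y‖) / (k + 1) := by
  have e : mk (n := k) (Complex.I * P ((x + y) k)) 0 -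
      (mk (Complex.I * P (x k)) 0 + mk (Complex.I * P (y k)) 0) =
      mk (-Complex.I * (Q k ((x k).z + (y k).z) - Q k (x k).z - Q k (y k).z : ℝ)) 0 := by
    rw [sub_eq_iff_eq_add]
    refine Y.ext ?_ ?_
    · simp only [add_h, mk_h, P, lp.coeFn_add, Pi.add_apply, add_z]; push_cast; ring
    · simp [add_z, mk_z]
  rw [R, R, R, ← lp.single_add, ← lp.single_sub, lp.norm_single (by simp), e, norm_mk0, norm_mul,
    norm_neg, Complex.norm_I, one_mul, Complex.norm_real, Real.norm_eq_abs]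
  refine (Q_add _ _ _).trans (div_le_div_of_nonneg_right ?_ (by positivity))
  linarith [l1_le (x k), l1_le (y k), ap x k, ap y k]

lemma R_rot (k : ℕ) (t : ℝ) (x : X) : ‖x + t • R k x‖ ≤ (1 + t ^ 2 / 2) * ‖x‖ := by
  have t1 : 1 ≤ 1 + t ^ 2 / 2 := by nlinarith
  refine lp.norm_le_of_forall_le (by positivity) fun j => ?_
  refine le_trans ?_ (mul_le_mul_of_nonneg_left (ap x j) (by positivity))
  rw [lp.coeFn_add, Pi.add_apply, lp.coeFn_smul, Pi.smul_apply, R]
  rcases eq_or_ne j k with rfl | h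
  · rw [lp.single_apply_self]
    have e1 : (x j + t • mk (Complex.I * P (x j)) 0).z = (x j).z := by simp [add_z, smul_z, mk_z]
    have e2 : P (x j + t • mk (Complex.I * P (x j)) 0) = (1 + t * Complex.I) * P (x j) := by
      rw [P, e1, add_h, smul_h, mk_h, add_mul, one_mul, P]; ring
    have e3 : ‖1 + t * Complex.I‖ ≤ 1 + t ^ 2 / 2 := by
      rw [Complex.norm_eq_sqrt_sq_add_sq, Real.sqrt_le_iff]
      simp
      constructor <;> nlinarith
    rw [norm_def, norm_def, e1, e2, norm_mul]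
    have := mul_le_mul_of_nonneg_right e3 (norm_nonneg (P (x j)))
    nlinarith [l1_nonneg (x j).z, F_nonneg j (x j).z, F_nonneg j (-(x j).z)]
  · rw [lp.single_apply_ne _ _ _ h, smul_zero, add_zero]
    exact le_mul_of_one_le_left (norm_nonneg _) t1

/-- bounded sequences -/
abbrev L (E : Type) [NormedAddCommGroup E] : Type := lp (fun _ : ℕ => E) ∞

lemma qnorm {E : Type} [NormedAddCommGroup E] [NormedSpace ℝ E] (U : Ultrafilter ℕ)
    (N : Submodule ℝ (L E)) (hN : ∀ x, x ∈ N ↔ Tendsto (fun k => ‖x k‖) U (𝓝 0)) (x : L E) :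
    Tendsto (fun k => ‖x k‖) U (𝓝 ‖(Submodule.Quotient.mk x : L E ⧸ N)‖) := by
  have ap : ∀ (y : L E) k, ‖y k‖ ≤ ‖y‖ := fun y k => lp.norm_apply_le_norm ENNReal.top_ne_zero y k
  obtain ⟨l, hl0, hl⟩ := (isCompact_Icc (a := (0 : ℝ)) (b := ‖x‖)).ultrafilter_le_nhds
    (U.map fun k => ‖x k‖) (by
      rw [le_principal_iff, Ultrafilter.mem_coe, Ultrafilter.mem_map]
      exact univ_mem' fun k => ⟨norm_nonneg _, ap x k⟩)
  have hl : Tendsto (fun k => ‖x k‖) U (𝓝 l) := hl
  convert hl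
  apply le_antisymm
  · refine le_of_forall_pos_le_add fun ε hε => ?_
    classical
    let y : L E := ⟨fun k => if ‖x k‖ ≤ l + ε then x k else 0, memℓp_infty ⟨‖x‖, by
      rintro _ ⟨k, rfl⟩
      dsimp only
      split_ifs
      · exact ap x k
      · simp⟩⟩
    have ya : ∀ k, y k = if ‖x k‖ ≤ l + ε then x k else 0 := fun _ => rfl
    have e : (Submodule.Quotient.mk x : L E ⧸ N) = Submodule.Quotient.mk y := by
      rw [Submodule.Quotient.eq, hN]
      refine tendsto_const_nhds.congr' ?_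
      filter_upwards [hl.eventually (ge_mem_nhds (lt_add_of_pos_right l hε))] with k hk
      rw [lp.coeFn_sub, Pi.sub_apply, ya, if_pos hk, sub_self, norm_zero]
    rw [e]
    refine (Submodule.Quotient.norm_mk_le _ _).trans
      (lp.norm_le_of_forall_le (by linarith [hl0.1]) fun k => ?_)
    rw [ya]
    split_ifs with h
    · exact h
    · rw [norm_zero]; linarith [hl0.1]
  · refine le_of_forall_pos_le_add fun ε hε => ?_
    obtain ⟨m, hm, h⟩ := Submodule.Quotient.norm_mk_lt (Submodule.Quotient.mk x : L E ⧸ N) hε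
    rw [Submodule.Quotient.eq, hN] at hm
    have := le_of_tendsto_of_tendsto' hl (hm.const_add ‖m‖) fun k => by
      have := norm_sub_le (m k) (m k - x k)
      rw [sub_sub_cancel] at this
      rw [lp.coeFn_sub, Pi.sub_apply]
      linarith [ap m k]
    linarith

lemma ultra (U : Ultrafilter ℕ) (hU : (U : Filter ℕ) ≤ cofinite)
    (N : Submodule ℝ (L X)) (hN : ∀ x, x ∈ N ↔ Tendsto (fun k => ‖x k‖) U (𝓝 0)) :
    ∃ T : (L X ⧸ N) →L[ℝ] (L X ⧸ N), ‖T‖ = 1 ∧
      ∀ (x : L X ⧸ N) (f : (L X ⧸ N) →L[ℝ] ℝ), ‖x‖ = 1 → ‖f‖ = 1 → f x = 1 → f (T x) = 0 := by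
  have q := qnorm U N hN
  have ap : ∀ (y : L X) k, ‖y k‖ ≤ ‖y‖ := fun y k => lp.norm_apply_le_norm ENNReal.top_ne_zero y k
  rw [Nat.cofinite_eq_atTop] at hU
  let ρ : L X → L X := fun x => ⟨fun k => R k (x k), memℓp_infty ⟨‖x‖, by
    rintro _ ⟨k, rfl⟩
    exact (R_le _ _).trans (ap x k)⟩⟩
  have ρa : ∀ x k, ρ x k = R k (x k) := fun _ _ => rfl
  let A : L X →ₗ[ℝ] (L X ⧸ N) :=
    { toFun := fun x => Submodule.Quotient.mk (ρ x)
      map_add' := fun x y => by
        rw [← Submodule.Quotient.mk_add, Submodule.Quotient.eq, hN]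
        have t : Tendsto (fun k : ℕ => 2 * (‖x‖ + ‖y‖) / (k + 1 : ℝ)) U (𝓝 0) :=
          (tendsto_const_nhds.div_atTop (tendsto_atTop_add_const_right _ 1
            tendsto_natCast_atTop_atTop)).mono_left hU
        refine squeeze_zero (fun _ => norm_nonneg _) (fun k => ?_) t
        rw [lp.coeFn_sub, Pi.sub_apply, lp.coeFn_add, Pi.add_apply, ρa, ρa, ρa, lp.coeFn_add,
          Pi.add_apply]
        refine (R_add _ _ _).trans (div_le_div_of_nonneg_right ?_ (by positivity))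
        linarith [ap x k, ap y k]
      map_smul' := fun a x => by
        rw [RingHom.id_apply, ← Submodule.Quotient.mk_smul]
        congr 1
        refine lp.ext (funext fun k => ?_)
        rw [lp.coeFn_smul, Pi.smul_apply, ρa, ρa, lp.coeFn_smul, Pi.smul_apply, R_smul] }
  have Aa : ∀ x, A x = Submodule.Quotient.mk (ρ x) := fun _ => rfl
  have Ab : ∀ x, ‖A x‖ ≤ ‖(Submodule.Quotient.mk x : L X ⧸ N)‖ := fun x =>
    le_of_tendsto_of_tendsto' (q (ρ x)) (q x) fun k => R_le _ _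
  let B : (L X ⧸ N) →ₗ[ℝ] (L X ⧸ N) := N.liftQ A fun x hx => by
    rw [LinearMap.mem_ker, Aa, Submodule.Quotient.mk_eq_zero, hN]
    exact squeeze_zero (fun _ => norm_nonneg _) (fun k => R_le _ _) ((hN x).1 hx)
  have Bb : ∀ x, ‖B x‖ ≤ 1 * ‖x‖ := fun x => by
    obtain ⟨x, rfl⟩ := N.mkQ_surjective x
    rw [one_mul]; exact Ab x
  refine ⟨B.mkContinuous 1 Bb, le_antisymm (LinearMap.mkContinuous_norm_le _ zero_le_one _) ?_,
    fun x f hx hf h => ?_⟩
  · have u1 : ∀ k, ‖(lp.single ∞ k (mk 1 0) : X)‖ = 1 := fun k => by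
      rw [lp.norm_single (by simp), norm_mk0, norm_one]
    let u : L X := ⟨fun k => lp.single ∞ k (mk 1 0), memℓp_infty ⟨1, by
      rintro _ ⟨k, rfl⟩
      exact (u1 k).le⟩⟩
    have ua : ∀ k, u k = lp.single ∞ k (mk 1 0) := fun _ => rfl
    have n1 : ‖(Submodule.Quotient.mk u : L X ⧸ N)‖ = 1 :=
      tendsto_nhds_unique (q u) (by simp only [ua, u1]; exact tendsto_const_nhds)
    have n2 : ‖(Submodule.Quotient.mk (ρ u) : L X ⧸ N)‖ = 1 :=
      tendsto_nhds_unique (q (ρ u)) (by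
        have : ∀ k, ‖ρ u k‖ = 1 := fun k => by
          rw [ρa, R_norm, ua, lp.single_apply_self, P, mk_h, mk_z]
          simp [Q]
        simp only [this]; exact tendsto_const_nhds)
    have := (B.mkContinuous 1 Bb).le_opNorm (Submodule.Quotient.mk u)
    rw [n1, mul_one] at this
    exact n2.symm.le.trans this
  · obtain ⟨x, rfl⟩ := N.mkQ_surjective x
    change f (Submodule.Quotient.mk (ρ x)) = 0
    rw [Submodule.mkQ_apply] at hx h
    have b : ∀ t : ℝ, t * f (Submodule.Quotient.mk (ρ x)) ≤ t ^ 2 / 2 := fun t => by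
      have h1 := le_of_tendsto_of_tendsto' (q (x + t • ρ x)) ((q x).const_mul (1 + t ^ 2 / 2))
        fun k => by
          rw [lp.coeFn_add, Pi.add_apply, lp.coeFn_smul, Pi.smul_apply, ρa]
          exact R_rot _ _ _
      have h2 := (le_abs_self _).trans (f.le_opNorm (Submodule.Quotient.mk (x + t • ρ x)))
      rw [hf, one_mul] at h2
      have h3 := h2.trans h1
      rw [Submodule.Quotient.mk_add, Submodule.Quotient.mk_smul, map_add, map_smul, h, hx,
        smul_eq_mul] at h3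
      linarith
    have := b (f (Submodule.Quotient.mk (ρ x)))
    nlinarith

end Pool.Agent.H.MP_6da9ed_an
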